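import Pool.Agent.N132.IX.StmDefs
import Pool.Agent.Y133.Half.Key

/-!
# One step of a composition series, abstract form (project IX, part L2)
-/

open Module Polynomial

namespace Pool.Agent.N132.IX

/-- IX/L2. One step of a composition series, abstract form. -/
theorem abs_step {K V B : Type*} [Field K] [AddCommGroup V] [Module K V] [FiniteDimensional K V]
    [AddCommGroup B] [Module K B] (E : Subalgebra K (Module.End K V)) (p : Module.End K V)
    (hp : ∀ x ∈ E, p * x = x * p) {M' M : Submodule K B} (α : E →ₗ[K] B →ₗ[K] B)
    (hM' : ∀ (x : E), ∀ m ∈ M', α x m ∈ M') (hM : ∀ (x : E), ∀ m ∈ M, α x m ∈ M)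
    (h1 : ∀ m ∈ M, α 1 m - m ∈ M')
    (hmul : ∀ x y : E, ∀ m ∈ M, α (x * y) m - α x (α y m) ∈ M') (hlt : ∃ m ∈ M, m ∉ M') :
    ∃ g : E, g * g = g ∧ ∃ z ∈ M, z ∉ M' ∧ α g z - z ∈ M' ∧
      ∀ x : E, α x z ∈ M' → LinearMap.trace K V (p * (g : Module.End K V) * x) = 0 := by
  classical
  -- membership modulo `M'`
  have mem1 : ∀ {a b : B}, a - b ∈ M' → b ∈ M' → a ∈ M' := by
    intro a b hab hb
    have := Submodule.add_mem _ hab hb
    rwa [sub_add_cancel] at this
  have mem2 : ∀ {a b : B}, a - b ∈ M' → a ∈ M' → b ∈ M' := by
    intro a b hab ha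
    have := Submodule.sub_mem _ ha hab
    rwa [sub_sub_cancel] at this
  -- an idempotent of minimal rank which is not zero on `M` modulo `M'`
  let Q : ℕ → Prop := fun n => ∃ g : E, g * g = g ∧ (∃ m ∈ M, α g m ∉ M') ∧
    finrank K (LinearMap.range (g : Module.End K V)) = n
  have hQ : ∃ n, Q n := by
    obtain ⟨m, hm, hm'⟩ := hlt
    exact ⟨_, 1, one_mul 1, ⟨m, hm, fun h => hm' (mem2 (h1 m hm) h)⟩, rfl⟩
  obtain ⟨g, hgg, ⟨m, hm, hgm⟩, hn⟩ := Nat.find_spec hQ
  have hmin : ∀ g' : E, g' * g' = g' → finrank K (LinearMap.range (g' : Module.End K V)) <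
      finrank K (LinearMap.range (g : Module.End K V)) → ∀ m ∈ M, α g' m ∈ M' := by
    intro g' hgg' hlt' m hm
    by_contra h
    rw [hn] at hlt'
    exact Nat.find_min hQ hlt' ⟨g', hgg', ⟨m, hm, h⟩, rfl⟩
  set z := α g m with hz
  have hzM : z ∈ M := hM g m hm
  have hgz : α g z - z ∈ M' := by
    have h2 := hmul g g m hm
    rw [hgg] at h2
    have h3 := Submodule.neg_mem _ h2
    rwa [neg_sub] at h3
  refine ⟨g, hgg, z, hzM, hgm, hgz, fun x hxz => ?_⟩
  set y : E := g * x * g with hy
  have hgy : g * y = y := by rw [hy, ← mul_assoc, ← mul_assoc, hgg]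
  have hyg : y * g = y := by rw [hy, mul_assoc, hgg]
  have hyz : α y z ∈ M' := by
    have h2 : α (g * x * g) z - α (g * x) (α g z) ∈ M' := hmul (g * x) g z hzM
    have h3 : α (g * x) (α g z) - α (g * x) z ∈ M' := by
      rw [← map_sub]
      exact hM' _ _ hgz
    have h4 : α (g * x) z - α g (α x z) ∈ M' := hmul g x z hzM
    have h5 : α g (α x z) ∈ M' := hM' _ _ hxz
    exact mem1 h2 (mem1 h3 (mem1 h4 h5))
  obtain ⟨q, hq1, hq2⟩ := Pool.Agent.Y133.Half.exists_fit (y : Module.End K V)
  set u : E := aeval y q with hu
  have huc : (u : Module.End K V) = aeval (y : Module.End K V) q := by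
    exact aeval_subalgebra_coe q E y
  rw [← huc] at hq1 hq2
  have hcomm : u * y = y * u := by
    have : Commute (aeval y q) (aeval y (X : K[X])) := by
      rw [Commute, SemiconjBy, ← map_mul, ← map_mul, mul_comm]
    rw [aeval_X] at this
    exact this
  set π : E := u * y with hπ
  have hππ : π * π = π := Subtype.ext (by simpa [hπ] using hq1)
  have hgπ : g * π = π := by rw [hcomm, ← mul_assoc, hgy]
  have hπg : π * g = π := by rw [hπ, mul_assoc, hyg]
  have hπ0 : π = 0 := by
    by_contra hne
    have h2 : (g - π) * (g - π) = g - π := by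
      rw [sub_mul, mul_sub, mul_sub, hgπ, hπg, hππ, sub_self, sub_zero, hgg]
    have h3 : finrank K (LinearMap.range ((g - π : E) : Module.End K V)) <
        finrank K (LinearMap.range (g : Module.End K V)) := by
      have ap : ∀ {a b c : E}, a * b = c → ∀ v : V, (a : Module.End K V) ((b : Module.End K V) v) =
          (c : Module.End K V) v := by
        intro a b c h v
        rw [← h]
        rfl
      have hle : LinearMap.range ((g - π : E) : Module.End K V) ≤
          LinearMap.range (g : Module.End K V) := by
        rintro _ ⟨v, rfl⟩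
        have : g * (g - π) = g - π := by rw [mul_sub, hgπ, hgg]
        exact ⟨_, ap this v⟩
      apply Submodule.finrank_lt_finrank_of_lt
      refine lt_of_le_of_ne hle ?_
      intro heq
      apply hne
      apply Subtype.ext
      apply LinearMap.ext
      intro v
      have h4 : (π : Module.End K V) v ∈ LinearMap.range (g : Module.End K V) := ⟨_, ap hgπ v⟩
      rw [← heq] at h4
      obtain ⟨w, hw⟩ := h4
      have h5 : (π : Module.End K V) (((g - π : E) : Module.End K V) w) = 0 := by
        have : π * (g - π) = 0 := by rw [mul_sub, hπg, hππ, sub_self]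
        rw [ap this w]
        rfl
      rw [hw, ap hππ v] at h5
      rw [h5]
      rfl
    have h4 : α (g - π) z ∈ M' := hmin _ h2 h3 z hzM
    have h5 : α π z ∈ M' := mem1 (hmul u y z hzM) (hM' _ _ hyz)
    have h6 : α g z ∈ M' := by
      have : α g z = α (g - π) z + α π z := by
        rw [map_sub, LinearMap.sub_apply, sub_add_cancel]
      rw [this]
      exact Submodule.add_mem _ h4 h5
    exact hgm (mem2 hgz h6)
  have hnil : IsNilpotent (y : Module.End K V) := by
    apply hq2
    have := congrArg (fun e : E => (e : Module.End K V)) hπ0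
    simpa [hπ] using this
  have hpg : p * (g : Module.End K V) = (g : Module.End K V) * p := hp g g.2
  have hpy : p * (y : Module.End K V) = (y : Module.End K V) * p := hp y y.2
  have h7 : LinearMap.trace K V (p * (y : Module.End K V)) = 0 := by
    have h2 : IsNilpotent (p * (y : Module.End K V)) := by
      obtain ⟨n, hn⟩ := hnil
      refine ⟨n, ?_⟩
      have hc : Commute p (y : Module.End K V) := hpy
      rw [hc.mul_pow, hn, mul_zero]
    exact (LinearMap.isNilpotent_trace_of_isNilpotent h2).eq_zero
  have hggc : (g : Module.End K V) * (g : Module.End K V) = (g : Module.End K V) := by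
    have := congrArg (fun e : E => (e : Module.End K V)) hgg
    simpa using this
  calc LinearMap.trace K V (p * (g : Module.End K V) * x)
      = LinearMap.trace K V (p * ((g : Module.End K V) * (g : Module.End K V)) * x) := by rw [hggc]
    _ = LinearMap.trace K V ((g : Module.End K V) * (p * (g : Module.End K V) * x)) := by
        congr 1
        calc p * ((g : Module.End K V) * (g : Module.End K V)) * (x : Module.End K V)
            = (p * (g : Module.End K V)) * ((g : Module.End K V) * (x : Module.End K V)) := by
              simp only [mul_assoc]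
          _ = ((g : Module.End K V) * p) * ((g : Module.End K V) * (x : Module.End K V)) := by
              rw [hpg]
          _ = _ := by simp only [mul_assoc]
    _ = LinearMap.trace K V ((p * (g : Module.End K V) * x) * (g : Module.End K V)) :=
        LinearMap.trace_mul_comm _ _ _
    _ = LinearMap.trace K V (p * (y : Module.End K V)) := by
        rw [hy]
        simp only [Subalgebra.coe_mul, mul_assoc]
    _ = 0 := h7

end Pool.Agent.N132.IX
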